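import Mathlib
import Pool.Agent.Q35.GM.Bas

/-!
Project GM, job LA: lattice points of a plane with an error term.
-/

set_option autoImplicit false

namespace Pool.Agent.Q285.GM

open Finset Function NumberField
open Pool.Agent.Q35.MM (bx dg Pts)
open Pool.Agent.Q35.EO (S1g bxg Shp nug mem_bxg)
open Pool.Agent.Q35.GM

section

variable {K : Type} [Field K] [NumberField K]

theorem HW_pos {m : ℕ} (W : Submodule K (Fin m → K)) : 0 < HW W := Height.mulHeight_pos _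

theorem tmin_bd {c0 : ℝ} (hc0 : 1 ≤ c0) {t : (K →+* ℂ) → ℝ} (ht : Shp c0 t)
    (w : InfinitePlace K) : 0 ≤ tmin t w ∧ tmin t w ≤ c0 := by
  have h0 : 0 ≤ 1 / c0 := by positivity
  exact ⟨le_min (h0.trans (ht _).1) (h0.trans (ht _).1), (min_le_left _ _).trans (ht _).2⟩

theorem kap_nonneg : 0 ≤ kap K := by
  unfold kap
  positivity

theorem cI_bd (I : Ideal (𝓞 K)) {c0 : ℝ} (hc0 : 1 ≤ c0) {t : (K →+* ℂ) → ℝ} (ht : Shp c0 t) :
    0 ≤ cI I t ∧ cI I t ≤ kap K / (Ideal.absNorm I : ℝ) ^ 2 *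
      ∏ w : InfinitePlace K, c0 ^ (2 * w.mult) := by
  have h0 : 0 ≤ kap K / (Ideal.absNorm I : ℝ) ^ 2 := div_nonneg kap_nonneg (by positivity)
  unfold cI
  constructor
  · refine mul_nonneg h0 (Finset.prod_nonneg fun w _ => ?_)
    exact pow_nonneg (tmin_bd hc0 ht w).1 _
  · refine mul_le_mul_of_nonneg_left (Finset.prod_le_prod (fun w _ => ?_) fun w _ => ?_) h0
    · exact pow_nonneg (tmin_bd hc0 ht w).1 _
    · exact pow_le_pow_left₀ (tmin_bd hc0 ht w).1 (tmin_bd hc0 ht w).2 _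

theorem la : Pool.Agent.Q35.EO.S_LAT → S_VF → S_LIM → S_LA := by
  intro hLAT hVF hLIM K _ _ m I c0 hI hc0
  obtain ⟨C1, hC1, hLAT⟩ := hLAT K m 2 I c0 hI hc0
  obtain ⟨C2, hC2, hVF, -⟩ := hVF K m
  have hC20 : 0 < C2 := by linarith
  set D1 : ℝ := kap K / (Ideal.absNorm I : ℝ) ^ 2 * ∏ w : InfinitePlace K, c0 ^ (2 * w.mult)
    with hD1
  set D2 : ℝ := ∏ _w : InfinitePlace K, C2 with hD2
  have hc00 : 0 < c0 := by linarith
  have hD10 : 0 ≤ D1 := mul_nonneg (div_nonneg kap_nonneg (by positivity)) (by positivity)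
  have hD20 : 0 ≤ D2 := by positivity
  set D : ℝ := D1 * D2 with hD
  have hD0 : 0 ≤ D := mul_nonneg hD10 hD20
  have hCb : C1 ≤ C1 * (1 + D) := by nlinarith
  refine ⟨2 * C1 * (1 + D), by nlinarith, ?_⟩
  intro t ht W σ ρ hW hσ hspan hρ
  have hσ0 : (0 : ℝ) < σ := by exact_mod_cast hσ
  have hρ2 : 2 * (C1 * σ) ≤ ρ := by
    refine le_trans ?_ hρ
    have h1 : 0 ≤ C1 * D * σ := by positivity
    nlinarith
  have hρ0 : (0 : ℝ) < ρ := by
    refine lt_of_lt_of_le ?_ hρ2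
    positivity
  have ht0 : ∀ φ, 0 < t φ := fun φ => lt_of_lt_of_le (by positivity) (ht φ).1
  have hlim := hLIM K m I t W hI ht0 hW
  have hH := HW_pos W
  -- the size of the density
  have hV0 : 0 ≤ VW W ∧ VW W ≤ D2 := by
    unfold VW
    have h1 : ∀ w : InfinitePlace K, 0 ≤ FV w (bs W).1 (bs W).2 ∧ FV w (bs W).1 (bs W).2 ≤ C2 := by
      intro w
      obtain ⟨h2, h3, -, -⟩ := hVF w _ _ (bs_spec hW).1
      exact ⟨le_trans (by positivity) h2, h3⟩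
    exact ⟨Finset.prod_nonneg fun w _ => (h1 w).1,
      Finset.prod_le_prod (fun w _ => (h1 w).1) fun w _ => (h1 w).2⟩
  obtain ⟨hc1, hc2⟩ := cI_bd I hc0 ht
  set L : ℝ := cI I t * VW W / HW W with hL
  have hL0 : 0 ≤ L := div_nonneg (mul_nonneg hc1 hV0.1) hH.le
  have hLD : L ≤ D / HW W := by
    rw [hL]
    exact div_le_div_of_nonneg_right (mul_le_mul hc2 hV0.2 hV0.1 hD10) hH.le
  set n : ℝ := (nug K I t m W ρ : ℝ) with hn
  have hn0 : 0 ≤ n := Nat.cast_nonneg _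
  set e : ℝ := C1 * ((σ : ℝ) / ρ) with he
  have he0 : 0 ≤ e := by positivity
  have he2 : e ≤ 1 / 2 := by
    rw [he, ← mul_div_assoc, div_le_iff₀ hρ0]
    linarith
  have key : |L * (ρ : ℝ) ^ (2 * dg K) - n| ≤ e * n := by
    refine le_of_tendsto ((hlim.mul_const _).sub_const _).abs
      (Filter.eventually_atTop.2 ⟨max ρ 1, fun B hB => ?_⟩)
    have hB1 : 1 ≤ B := le_trans (le_max_right _ _) hB
    have hB0 : (0 : ℝ) < B := by exact_mod_cast hB1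
    have hBp : (0 : ℝ) < (B : ℝ) ^ (2 * dg K) := by positivity
    have h1 := hLAT t ht W σ ρ B hW hσ hspan (by linarith [mul_nonneg (by linarith : 0 ≤ C1) hσ0.le])
      (le_trans (le_max_left _ _) hB)
    rw [mul_comm (dg K) 2] at h1
    have h2 : (nug K I t m W B : ℝ) / (B : ℝ) ^ (2 * dg K) * (ρ : ℝ) ^ (2 * dg K) - n =
        ((nug K I t m W B : ℝ) * (ρ : ℝ) ^ (2 * dg K) - n * (B : ℝ) ^ (2 * dg K)) /
          (B : ℝ) ^ (2 * dg K) := by
      field_simp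
    rw [h2, abs_div, abs_of_pos hBp, div_le_iff₀ hBp, mul_assoc]
    exact h1
  have h3 : n ≤ 2 * (L * (ρ : ℝ) ^ (2 * dg K)) := by
    have h4 := abs_le.1 key
    have h5 : e * n ≤ 1 / 2 * n := mul_le_mul_of_nonneg_right he2 hn0
    linarith [h4.1]
  have hP : (0 : ℝ) ≤ (ρ : ℝ) ^ (2 * dg K) := by positivity
  rw [abs_sub_comm]
  calc |L * (ρ : ℝ) ^ (2 * dg K) - n| ≤ e * n := key
    _ ≤ e * (2 * (L * (ρ : ℝ) ^ (2 * dg K))) := mul_le_mul_of_nonneg_left h3 he0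
    _ ≤ e * (2 * (D / HW W * (ρ : ℝ) ^ (2 * dg K))) := by
      refine mul_le_mul_of_nonneg_left ?_ he0
      have := mul_le_mul_of_nonneg_right hLD hP
      linarith
    _ = 2 * C1 * D * ((σ : ℝ) / ρ) * ((ρ : ℝ) ^ (2 * dg K) / HW W) := by
      rw [he]
      ring
    _ ≤ 2 * C1 * (1 + D) * ((σ : ℝ) / ρ) * ((ρ : ℝ) ^ (2 * dg K) / HW W) := by
      have h6 : 0 ≤ ((σ : ℝ) / ρ) * ((ρ : ℝ) ^ (2 * dg K) / HW W) := by positivity
      have h7 : 2 * C1 * D ≤ 2 * C1 * (1 + D) := by nlinarith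
      have h8 := mul_le_mul_of_nonneg_right h7 h6
      linarith

end

end Pool.Agent.Q285.GM
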