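import Mathlib
import Pool.Agent.Q35.GM.Bas

/-!
Project GM, job LIM: the density of the lattice points of a plane.
-/

set_option autoImplicit false

namespace Pool.Agent.Q285.GM

open Finset Function NumberField
open Pool.Agent.Q35.MM (bx dg Pts)
open Pool.Agent.Q35.EO (S1g bxg Shp nug mem_bxg)
open Pool.Agent.Q35.GM

section

variable {K : Type} [Field K]

theorem comb_eq {m : ℕ} (α β c : K) (x y : Fin m → K) :
    α • x + β • (y - c • x) = (α - β * c) • x + β • y := by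
  funext p
  simp only [Pi.add_apply, Pi.smul_apply, Pi.sub_apply, smul_eq_mul]
  ring

theorem linInd_sub {m : ℕ} {x y : Fin m → K} (h : LinearIndependent K ![x, y]) (c : K) :
    LinearIndependent K ![x, y - c • x] := by
  rw [linInd_iff] at h ⊢
  intro a b hab
  rw [comb_eq] at hab
  obtain ⟨h1, h2⟩ := h _ _ hab
  rw [h2, zero_mul, sub_zero] at h1
  exact ⟨h1, h2⟩

theorem plu_sub {m : ℕ} (x y : Fin m → K) (c : K) : plu x (y - c • x) = plu x y := by
  funext p
  simp only [plu, Pi.sub_apply, Pi.smul_apply, smul_eq_mul]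
  ring

theorem nvp_sub {m : ℕ} (v : K → ℝ) (x y : Fin m → K) (c : K) :
    nvp v x (y - c • x) = nvp v x y := by
  unfold nvp
  rw [plu_sub]

end

section

variable {K : Type} [Field K] [NumberField K]

/-- The lattice points of a plane in a box are counted by pairs of coefficients. -/
theorem nug_eq {m : ℕ} (I : Ideal (𝓞 K)) (t : (K →+* ℂ) → ℝ) {W : Submodule K (Fin m → K)}
    {x y : Fin m → K} (hxy : LinearIndependent K ![x, y]) (hW : Submodule.span K {x, y} = W) (c : K)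
    (J1 J2 : FractionalIdeal (nonZeroDivisors (𝓞 K)) K)
    (hJ : ∀ α β : K, (∀ a, ∃ z ∈ I, algebraMap (𝓞 K) K z = α * x a + β * (y a - c * x a)) ↔
        α ∈ J1 ∧ β ∈ J2) (B : ℕ) :
    nug K I t m W B = {p : K × K | p.1 ∈ J1 ∧ p.2 ∈ J2 ∧
      ∀ (φ : K →+* ℂ) (a : Fin m), ‖φ (p.1 * x a + p.2 * (y - c • x) a)‖ ≤ t φ * B}.ncard := by
  classical
  have hxy' := linInd_sub hxy c
  unfold nug
  rw [← Set.ncard_coe_finset]
  symm
  refine Set.ncard_congr (fun p _ => p.1 • x + p.2 • (y - c • x)) ?_ ?_ ?_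
  · rintro ⟨α, β⟩ ⟨h1, h2, h3⟩
    have h4 := (hJ α β).2 ⟨h1, h2⟩
    rw [Finset.mem_coe, Finset.mem_filter, mem_bxg]
    refine ⟨fun a => ⟨?_, fun φ => ?_⟩, ?_⟩
    · exact h4 a
    · exact h3 φ a
    · show α • x + β • (y - c • x) ∈ W
      rw [comb_eq, ← hW, Submodule.mem_span_pair]
      exact ⟨_, _, rfl⟩
  · rintro ⟨α, β⟩ ⟨α', β'⟩ _ _ h
    have h' : α • x + β • (y - c • x) = α' • x + β' • (y - c • x) := h
    rw [linInd_iff] at hxy'
    have h1 : (α - α') • x + (β - β') • (y - c • x) = 0 := by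
      have h5 : (α - α') • x + (β - β') • (y - c • x) =
          (α • x + β • (y - c • x)) - (α' • x + β' • (y - c • x)) := by
        rw [sub_smul, sub_smul]
        abel
      rw [h5, h', sub_self]
    obtain ⟨h2, h3⟩ := hxy' _ _ h1
    rw [sub_eq_zero.1 h2, sub_eq_zero.1 h3]
  · intro v hv
    rw [Finset.mem_coe, Finset.mem_filter, mem_bxg] at hv
    obtain ⟨h1, h2⟩ := hv
    rw [← hW, Submodule.mem_span_pair] at h2
    obtain ⟨a, b, hab⟩ := h2
    have h3 : (a + b * c) • x + b • (y - c • x) = v := by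
      rw [comb_eq, add_sub_cancel_right, hab]
    have h4 : ∀ p, (a + b * c) * x p + b * (y p - c * x p) = v p := fun p => congrFun h3 p
    refine ⟨(a + b * c, b), ?_, h3⟩
    have h5 := (hJ (a + b * c) b).1 (fun p => by
      rw [h4 p]
      exact (h1 p).1)
    exact ⟨h5.1, h5.2, fun φ p => by
      show ‖φ ((a + b * c) * x p + b * (y p - c * x p))‖ ≤ _
      rw [h4 p]
      exact (h1 p).2 φ⟩

theorem lim : S_VF → S_SPL → S_CNT → S_LIM := by
  intro hVF hSPL hCNT K _ _ m I t W hI ht hW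
  obtain ⟨hxy, hsp⟩ := bs_spec hW
  set x := (bs W).1 with hx
  set y := (bs W).2 with hy
  obtain ⟨c, J1, J2, hJ1, hJ2, hJ, hH⟩ := hSPL K m I x y hI hxy
  have hxy' := linInd_sub hxy c
  have h1 := hCNT K m J1 J2 x (y - c • x) t hJ1 hJ2 hxy' ht
  have h2 : (fun B : ℕ => (nug K I t m W B : ℝ) / (B : ℝ) ^ (2 * dg K)) =
      fun B : ℕ => (({p : K × K | p.1 ∈ J1 ∧ p.2 ∈ J2 ∧
      ∀ (φ : K →+* ℂ) (a : Fin m), ‖φ (p.1 * x a + p.2 * (y - c • x) a)‖ ≤ t φ * B}.ncard : ℕ) : ℝ) /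
        (B : ℝ) ^ (2 * dg K) := by
    funext B
    rw [nug_eq I t hxy hsp c J1 J2 hJ B]
  rw [h2]
  refine h1.trans (le_of_eq ?_)
  congr 1
  obtain ⟨C, -, hC, -⟩ := hVF K m
  -- the factors
  have hN : ((Ideal.absNorm I : ℕ) : ℝ) ≠ 0 := by
    rw [Nat.cast_ne_zero]
    exact fun h => hI (Ideal.absNorm_eq_zero_iff.1 h)
  have hHp : Height.mulHeight (plu x y) ≠ 0 := (Height.mulHeight_pos _).ne'
  set NJ : ℝ := ((FractionalIdeal.absNorm J1 : ℚ) : ℝ) * ((FractionalIdeal.absNorm J2 : ℚ) : ℝ)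
    with hNJ
  have hne : (∏ w : InfinitePlace K, nvp w x y ^ w.mult) * NJ ≠ 0 := by
    rw [← hH]
    exact mul_ne_zero hHp (pow_ne_zero _ hN)
  have hP0 := left_ne_zero_of_mul hne
  have hNJ0 := right_ne_zero_of_mul hne
  have htm : ∀ w : InfinitePlace K, 0 ≤ tmin t w := fun w => (lt_min (ht _) (ht _)).le
  have e1 : ∏ w : InfinitePlace K, volw w x (y - c • x) (tmin t w) =
      (∏ w : InfinitePlace K, tmin t w ^ (2 * w.mult)) *
        ∏ w : InfinitePlace K, volw w x (y - c • x) 1 := by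
    rw [← Finset.prod_mul_distrib]
    refine Finset.prod_congr rfl fun w _ => ?_
    exact (hC w _ _ hxy').2.2.1 _ (htm w)
  have e2 : VW W = (∏ w : InfinitePlace K, nvp w x y ^ w.mult) *
      ∏ w : InfinitePlace K, volw w x (y - c • x) 1 := by
    unfold VW
    rw [← Finset.prod_mul_distrib]
    refine Finset.prod_congr rfl fun w _ => ?_
    have h3 := (hC w _ _ hxy).2.2.2 1 0 (-c) 1 (by simp)
    have h4 : (1 : K) • x + (0 : K) • y = x := by rw [one_smul, zero_smul, add_zero]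
    have h5 : (-c) • x + (1 : K) • y = y - c • x := by
      rw [neg_smul, one_smul]
      abel
    rw [h4, h5] at h3
    rw [← h3]
    unfold FV
    rw [nvp_sub]
  have e3 : HW W = Height.mulHeight (plu x y) := rfl
  rw [e1, e2, e3]
  unfold cI
  set P := ∏ w : InfinitePlace K, nvp w x y ^ w.mult
  set V := ∏ w : InfinitePlace K, volw w x (y - c • x) 1
  set T := ∏ w : InfinitePlace K, tmin t w ^ (2 * w.mult)
  have e4 : kap K / NJ * (T * V) = kap K * T * V * (P / (P * NJ)) := by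
    rw [mul_comm P NJ, div_mul_cancel_right₀ hP0]
    field_simp
  rw [e4, ← hH]
  field_simp

end

end Pool.Agent.Q285.GM
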